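import Mathlib
import Pool.Agent.H706R2.PiDigits

set_option autoImplicit false

open Filter

/-- Digit changes in the decimal expansions of the numbers `q^n π`, `n < M`. For `q = 2, …, 9` there
are `s > 1` (equal to `log 4 / log 3 > 1.2618` for `q = 3, 7, 9`) and `c > 0` such that for all large
`M` the number of pairs `(n, i)`, `0 ≤ n, i < M`, for which the `(i+1)`-st and `(i+2)`-nd decimal
digits after the point of `q^n π` are different is at least `c M^s`. -/
theorem Pool.Agent.Results.MP_57632f_nt.DigitChangesMultiplesPi.result :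
    ∀ q : ℕ, 2 ≤ q → q ≤ 9 →
      ∃ s : ℝ, 1 < s ∧ (Nat.Coprime 10 q → s = Real.log 4 / Real.log 3) ∧
        ∃ c : ℝ, 0 < c ∧ ∀ᶠ M : ℕ in atTop, c * (M : ℝ) ^ s ≤
          ((∑ n ∈ Finset.range M, ((Finset.range M).filter (fun i : ℕ =>
            ⌊(10 : ℝ) ^ (i + 1) * ((q : ℝ) ^ n * Real.pi)⌋ % 10 ≠
              ⌊(10 : ℝ) ^ (i + 2) * ((q : ℝ) ^ n * Real.pi)⌋ % 10)).card : ℕ) : ℝ) := by
  intro q hq hq9
  have hirr := Pool.Agent.H706R2.irr_log hq hq9
  obtain ⟨M0, hM0⟩ := Pool.Agent.H706R2.pi_diag hq hq9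
  set r : ℝ := 1 / 11 with hr
  have hr0 : 0 < r := by norm_num
  have hrb : (((10 : ℕ) : ℝ) + 1) * r ≤ 1 := by rw [hr]; norm_num
  have hrq : ((q : ℝ) + 1) * r ≤ 1 := by
    have : (q : ℝ) ≤ 9 := by exact_mod_cast hq9
    rw [hr]; linarith
  have hlt : ∀ C : ℕ, 2 ≤ C → 1 < Real.log (C + 1) / Real.log C := by
    intro C hC
    have hCR : (2 : ℝ) ≤ C := by exact_mod_cast hC
    have h1 : 0 < Real.log (C : ℝ) := Real.log_pos (by linarith)
    have h2 : Real.log (C : ℝ) < Real.log (C + 1) := Real.log_lt_log (by linarith) (by linarith)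
    rw [lt_div_iff₀ h1]; linarith
  have hlq : 0 < Real.log q := Real.log_pos (by exact_mod_cast (by omega : 1 < q))
  have hl10 : 0 < Real.log ((10 : ℕ) : ℝ) := Real.log_pos (by norm_num)
  by_cases hco : Nat.Coprime 10 q
  · have hsc := Pool.Agent.H706R2.scales_coprime (by norm_num) hq hco hrb hrq
    have e : Real.log (((3 : ℕ) : ℝ) + 1) / Real.log ((3 : ℕ) : ℝ)
        = Real.log 4 / Real.log 3 := by norm_num
    refine ⟨Real.log 4 / Real.log 3, ?_, fun _ => rfl, ?_⟩
    · rw [← e]; exact hlt 3 (by norm_num)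
    · obtain ⟨c, hc, hev⟩ := Pool.Agent.H706R2.changes_diag (b := 10) (by norm_num) hq hr0 hrb
        (by norm_num) (by linarith) hsc (x := Real.pi) (C1 := 20) (by norm_num) M0 hM0
      refine ⟨c, hc, ?_⟩
      filter_upwards [hev] with M hM
      rw [e] at hM
      exact hM
  · obtain ⟨C, c, hC, hc, hsc⟩ := Pool.Agent.H706R2.scales_general (p := 10) (by norm_num) hq hirr hrb hrq
    refine ⟨Real.log (C + 1) / Real.log C, hlt C (by omega), fun h => absurd h hco, ?_⟩
    obtain ⟨c', hc', hev⟩ := Pool.Agent.H706R2.changes_diag (b := 10) (by norm_num) hq hr0 hrb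
        (by omega) hc hsc (x := Real.pi) (C1 := 20) (by norm_num) M0 hM0
    exact ⟨c', hc', hev⟩
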