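import Mathlib
import Pool.Agent.H326R2.Pi.DigitsTop

set_option autoImplicit false

namespace Pool.Agent.Results.MP_57632f_nt.PeriodicBlocks

/-- `digit i = ⌊10^i π⌋ mod 10` is the `i`-th decimal digit of `π`. -/
noncomputable def digit (i : ℕ) : ℤ := ⌊Real.pi * (10 : ℝ) ^ i⌋ % 10

/-- Decimal digits of `π`. (1) There is `N0` such that for all `N ≥ N0` and ALL `s ≥ 1` the digits are
not `s`-periodic on the positions from `N + 1` to `N + 5.051 (N + s)`: some `i` there has
`digit (i + s) ≠ digit i`.  (2) Among the first `M` digits there are at least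
`log M / log 6.06 - C` positions where the digit changes. -/
theorem result :
    (∃ N0 : ℕ, ∀ N : ℕ, N0 ≤ N → ∀ s : ℕ, 1 ≤ s →
      ∃ i : ℕ, N < i ∧ (i : ℝ) ≤ N + 5.051 * (N + s) ∧ digit (i + s) ≠ digit i) ∧
    (∃ C : ℝ, ∀ M : ℕ, 1 ≤ M →
      Real.log M / Real.log 6.06 - C ≤ ((Finset.range M).filter fun i => digit (i + 1) ≠ digit i).card) := by
  constructor
  · obtain ⟨N0, h⟩ := Pool.Agent.H326R2.Pi.blocks
    refine ⟨N0, fun N hN s hs => ?_⟩
    obtain ⟨i, h1, h2, h3⟩ := h 10 (by norm_num) N hN s hs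
    refine ⟨i, h1, h2, ?_⟩
    unfold digit
    push_cast at h3
    exact h3
  · obtain ⟨C, h⟩ := Pool.Agent.H326R2.Pi.changes
    refine ⟨C, fun M hM => ?_⟩
    have h1 := h 10 (by norm_num) M hM
    have e : ∀ i, Pool.Agent.H326R2.Pi.dig 10 i = digit i := by
      intro i
      unfold Pool.Agent.H326R2.Pi.dig digit
      push_cast
      rfl
    unfold Pool.Agent.H326R2.Pi.nch at h1
    simp only [e] at h1
    exact h1

end Pool.Agent.Results.MP_57632f_nt.PeriodicBlocks
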