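import Mathlib
import Pool.Agent.H346R2.Mahler

set_option autoImplicit false

namespace Pool.Agent.Results.MP_57632f_nt.WordsInMultiples

/-- Let `k ≥ 1`, `w` a word of `k` decimal digits, `s ≥ 1` and `r` a residue modulo `s`.  There is an
integer `1 ≤ X ≤ 10^s (10^k - 1)` such that `w` occurs in the decimal expansion of `X π` at infinitely
many positions congruent to `r` modulo `s` (position `i` means: the digits number
`i+1, …, i+k` after the decimal point are `w 0, …, w (k-1)`). -/
theorem result (k : ℕ) (hk : 0 < k) (w : Fin k → Fin 10) (s : ℕ) (hs : 0 < s) (r : ℕ) :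
    ∃ X : ℕ, 1 ≤ X ∧ X ≤ 10 ^ s * (10 ^ k - 1) ∧
      {i : ℕ | i % s = r % s ∧ ∀ j : Fin k,
        ⌊((X : ℝ) * Real.pi) * (10 : ℝ) ^ (i + 1 + (j : ℕ))⌋ % 10 = (((w j : ℕ)) : ℤ)}.Infinite := by
  have h := Pool.Agent.H346R2.word_in_multiple 10 (by norm_num) Real.pi irrational_pi s hs r k hk w
  simpa using h

end Pool.Agent.Results.MP_57632f_nt.WordsInMultiples
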